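import Mathlib
import Pool.Agent.Y114.RM.Stm

/-!
# Rank data from multiplicatively independent eigenvalues
-/

set_option autoImplicit false

namespace Pool.Agent.Y86.RM

open Module Polynomial Pool.Agent.TH118.SG Pool.Agent.Y114.RM

/-- additive functions dual to multiplicatively independent elements -/
theorem exists_dual {r : ℕ} (z : Fin r → ℂˣ) (hz : ∀ e : Fin r → ℤ, ∏ i, z i ^ e i = 1 → e = 0) :
    ∃ θ : Fin r → (Additive ℂˣ →+ ℂ), ∀ i j, θ i (Additive.ofMul (z j)) = if i = j then 1 else 0 := by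
  have hB : Module.Baer ℤ ℂ := Module.Baer.of_divisible ℂ
  let f0 : (Fin r → ℤ) →+ Additive ℂˣ :=
    { toFun := fun e => Additive.ofMul (∏ i, z i ^ e i)
      map_zero' := by simp
      map_add' := fun a b => by
        rw [← ofMul_mul, ← Finset.prod_mul_distrib]
        congr 1
        exact Finset.prod_congr rfl fun i _ => by rw [Pi.add_apply, zpow_add] }
  let f : (Fin r → ℤ) →ₗ[ℤ] Additive ℂˣ := f0.toIntLinearMap
  have hfa : ∀ e, f e = Additive.ofMul (∏ i, z i ^ e i) := fun e => rfl
  have hf : Function.Injective f := by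
    rw [injective_iff_map_eq_zero]
    intro e he
    exact hz e he
  have h0 : ∀ j, f (Pi.single j 1) = Additive.ofMul (z j) := by
    intro j
    rw [hfa, Finset.prod_eq_single j]
    · rw [Pi.single_eq_same, zpow_one]
    · intro b _ hb
      rw [Pi.single_eq_of_ne hb, zpow_zero]
    · intro h
      exact absurd (Finset.mem_univ j) h
  choose h hh using fun i : Fin r => Module.Baer.extension_property hB f hf
    ((LinearMap.toSpanSingleton ℤ ℂ (1 : ℂ)).comp (LinearMap.proj i))
  refine ⟨fun i => (h i).toAddMonoidHom, fun i j => ?_⟩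
  have h1 := congrArg (fun F : (Fin r → ℤ) →ₗ[ℤ] ℂ => F (Pi.single j 1)) (hh i)
  simp only [LinearMap.comp_apply, h0, LinearMap.toSpanSingleton_apply, LinearMap.proj_apply] at h1
  change h i (Additive.ofMul (z j)) = _
  rw [h1]
  by_cases hij : i = j
  · subst hij
    simp
  · rw [Pi.single_eq_of_ne hij, if_neg hij, zero_smul]

theorem trace_op {V : Type} [AddCommGroup V] [Module ℂ V] [FiniteDimensional ℂ V]
    (g A : End ℂ V) (c : ℂ → ℂ) (hA : ∀ β, ∀ x ∈ g.maxGenEigenspace β, A x = c β • x)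
    (S : Finset ℂ) (hS : ∀ β, β ∉ S → g.maxGenEigenspace β = ⊥) :
    LinearMap.trace ℂ V A = ∑ β ∈ S, (finrank ℂ (g.maxGenEigenspace β) : ℂ) * c β := by
  classical
  have hN : {β | g.maxGenEigenspace β ≠ ⊥}.Finite := S.finite_toSet.subset (by
    intro β hβ
    by_contra h
    exact hβ (hS β h))
  have hm : ∀ β, Set.MapsTo A (g.maxGenEigenspace β) (g.maxGenEigenspace β) := by
    intro β x hx
    have hx' : x ∈ g.maxGenEigenspace β := hx
    change A x ∈ g.maxGenEigenspace β
    rw [hA β x hx']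
    exact Submodule.smul_mem _ _ hx'
  rw [LinearMap.trace_eq_sum_trace_restrict' (gen_internal g) hN hm]
  have h1 : ∀ β, LinearMap.trace ℂ (g.maxGenEigenspace β) (A.restrict (hm β)) =
      (finrank ℂ (g.maxGenEigenspace β) : ℂ) * c β := by
    intro β
    have h2 : A.restrict (hm β) = c β • LinearMap.id := by
      ext x
      change A x = c β • (x : V)
      exact hA β x x.2
    rw [h2, map_smul, LinearMap.trace_id, smul_eq_mul, mul_comm]
  rw [Finset.sum_congr rfl fun β _ => h1 β]
  refine Finset.sum_subset ?_ ?_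
  · intro β hβ
    by_contra h
    rw [Set.Finite.mem_toFinset] at hβ
    exact hβ (hS β h)
  · intro β _ hβ
    rw [Set.Finite.mem_toFinset] at hβ
    have h2 : g.maxGenEigenspace β = ⊥ := by
      by_contra h
      exact hβ h
    rw [h2, finrank_bot, Nat.cast_zero, zero_mul]

theorem op_add_pow {V : Type} [AddCommGroup V] [Module ℂ V] (g h : End ℂ V) (c : ℂ → ℂ)
    (hh : ∀ β, ∀ x ∈ g.maxGenEigenspace β, h x = c β • x) (p : ℂ[X]) (β : ℂ) :
    ∀ x ∈ g.maxGenEigenspace β, aeval h p x = (p.eval (c β)) • x := by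
  intro x hx
  induction p using Polynomial.induction_on' with
  | add p q hp hq => rw [map_add, LinearMap.add_apply, hp, hq, eval_add, add_smul]
  | monomial n a =>
    rw [aeval_monomial, eval_monomial, Module.End.mul_apply, Module.algebraMap_end_apply, mul_smul]
    congr 1
    induction n with
    | zero => simp
    | succ n ih => rw [pow_succ, Module.End.mul_apply, hh β x hx, map_smul, ih, smul_smul, pow_succ,
        mul_comm]

/-- a point which separates finitely many polynomials -/
theorem exists_sep (B : Finset ℂ) (q : ℂ → ℂ[X]) :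
    ∃ t : ℂ, ∀ b ∈ B, ∀ b' ∈ B, (q b).eval t = (q b').eval t → q b = q b' := by
  classical
  let Q : ℂ[X] := ∏ x ∈ (B ×ˢ B).filter (fun x => q x.1 ≠ q x.2), (q x.1 - q x.2)
  have hQ : Q ≠ 0 := Finset.prod_ne_zero_iff.2 fun x hx => sub_ne_zero.2 (Finset.mem_filter.1 hx).2
  obtain ⟨t, ht⟩ : ∃ t : ℂ, Q.eval t ≠ 0 := by
    by_contra h
    push Not at h
    exact hQ (Polynomial.funext fun t => by rw [h t, eval_zero])
  refine ⟨t, fun b hb b' hb' h => ?_⟩
  by_contra hne
  apply ht
  rw [eval_prod]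
  refine Finset.prod_eq_zero (i := (b, b')) ?_ ?_
  · exact Finset.mem_filter.2 ⟨Finset.mem_product.2 ⟨hb, hb'⟩, hne⟩
  · rw [eval_sub, h, sub_self]

theorem rd : S_RD := by
  classical
  intro V _ _ _ g hg r z hz hind
  have hz0 : ∀ i, z i ≠ 0 := by
    intro i h
    obtain ⟨v, hv⟩ := (hz i).exists_hasEigenvector
    have h1 := hv.apply_eq_smul
    rw [h, zero_smul] at h1
    exact hv.2 (hg (by rw [h1, map_zero]))
  obtain ⟨θ, hθ⟩ := exists_dual (fun i => Units.mk0 (z i) (hz0 i)) (by
    intro e he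
    apply hind e
    have h1 := congrArg (fun x : ℂˣ => (x : ℂ)) he
    simpa using h1)
  have hθ' : ∀ i j, ext0 (θ i) (z j) = if i = j then 1 else 0 := by
    intro i j
    rw [ext0_ne _ (hz0 j), hθ i j]
  -- the finite set of eigenvalues
  have hfin : {β | g.maxGenEigenspace β ≠ ⊥}.Finite := by
    refine (Module.End.finite_hasEigenvalue g).subset ?_
    intro β hβ
    by_contra h
    have h1 : g.HasUnifEigenvalue β ⊤ := hβ
    exact h (h1.lt one_pos)
  let B : Finset ℂ := hfin.toFinset
  have hB : ∀ β, β ∉ B → g.maxGenEigenspace β = ⊥ := by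
    intro β hβ
    by_contra h
    exact hβ ((Set.Finite.mem_toFinset hfin).2 h)
  have hB' : ∀ β, β ∈ B → g.maxGenEigenspace β ≠ ⊥ := by
    intro β hβ
    exact (Set.Finite.mem_toFinset hfin).1 hβ
  have hzB : ∀ i, z i ∈ B := by
    intro i
    by_contra h
    have h1 := hB _ h
    obtain ⟨v, hv⟩ := (hz i).exists_hasEigenvector
    have h2 : v ∈ g.maxGenEigenspace (z i) := by
      rw [mem_gen]
      refine ⟨1, ?_⟩
      rw [pow_one, LinearMap.sub_apply, Module.algebraMap_end_apply, hv.apply_eq_smul, sub_self]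
    rw [h1] at h2
    exact hv.2 ((Submodule.mem_bot ℂ).1 h2)
  let q : ℂ → ℂ[X] := fun β => ∑ i : Fin r, C (ext0 (θ i) β) * X ^ (i : ℕ)
  have hqc : ∀ β (i : Fin r), (q β).coeff (i : ℕ) = ext0 (θ i) β := by
    intro β i
    simp only [q, finsetSum_coeff, coeff_C_mul, coeff_X_pow]
    rw [Finset.sum_eq_single i]
    · simp
    · intro b _ hb
      rw [if_neg (fun h => hb (Fin.ext h.symm)), mul_zero]
    · intro h
      exact absurd (Finset.mem_univ i) h
  obtain ⟨t, ht⟩ := exists_sep B q
  let θ' : Additive ℂˣ →+ ℂ := ∑ i : Fin r, (AddMonoidHom.mulLeft (t ^ (i : ℕ))).comp (θ i)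
  have hθq : ∀ β, ext0 θ' β = (q β).eval t := by
    intro β
    by_cases h : β = 0
    · rw [h, ext0_zero]
      simp only [q, ext0_zero, map_zero, zero_mul, Finset.sum_const_zero, eval_zero]
    · rw [ext0_ne _ h]
      simp only [q, ext0_ne _ h, eval_finsetSum, eval_mul, eval_C, eval_pow, eval_X, θ',
        AddMonoidHom.finsetSum_apply, AddMonoidHom.comp_apply, AddMonoidHom.coe_mulLeft]
      exact Finset.sum_congr rfl fun i _ => mul_comm _ _
  have hsep : ∀ β ∈ B, ∀ β' ∈ B, ext0 θ' β = ext0 θ' β' → ∀ i, ext0 (θ i) β = ext0 (θ i) β' := by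
    intro β hβ β' hβ' h i
    rw [hθq, hθq] at h
    rw [← hqc β i, ← hqc β' i, ht β hβ β' hβ' h]
  let N : Finset ℂ := B.image (ext0 θ')
  let p : Fin r → ℂ[X] := fun i => Lagrange.interpolate N id
    (fun s => if s = ext0 θ' (z i) then (1 : ℂ) else 0)
  have hp : ∀ i, ∀ β ∈ B, (p i).eval (ext0 θ' β) = if ext0 θ' β = ext0 θ' (z i) then 1 else 0 := by
    intro i β hβ
    have h1 := Lagrange.eval_interpolate_at_node (s := N) (v := (id : ℂ → ℂ))
      (fun s => if s = ext0 θ' (z i) then (1 : ℂ) else 0) (i := ext0 θ' β)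
      (Function.injective_id.injOn) (Finset.mem_image_of_mem _ hβ)
    exact h1
  refine ⟨θ', θ, p, fun h' T hh' hT => ?_⟩
  have hentry : ∀ i j, LinearMap.trace ℂ V (aeval h' (p i) * T j) =
      if i = j then (∑ β ∈ B, if ext0 θ' β = ext0 θ' (z i) then
        (finrank ℂ (g.maxGenEigenspace β) : ℂ) else 0) else 0 := by
    intro i j
    rw [trace_op g (aeval h' (p i) * T j) (fun β => (p i).eval (ext0 θ' β) * ext0 (θ j) β) (by
      intro β x hx
      rw [Module.End.mul_apply, hT j β x hx, map_smul, op_add_pow g h' (ext0 θ') hh' (p i) β x hx,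
        smul_smul, mul_comm]) B hB]
    by_cases hij : i = j
    · rw [if_pos hij]
      refine Finset.sum_congr rfl fun β hβ => ?_
      rw [hp i β hβ]
      by_cases h : ext0 θ' β = ext0 θ' (z i)
      · rw [if_pos h, if_pos h, hsep β hβ (z i) (hzB i) h j, hθ' j i, if_pos hij.symm, mul_one,
          mul_one]
      · rw [if_neg h, if_neg h, zero_mul, mul_zero]
    · rw [if_neg hij]
      refine Finset.sum_eq_zero fun β hβ => ?_
      rw [hp i β hβ]
      by_cases h : ext0 θ' β = ext0 θ' (z i)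
      · rw [if_pos h, hsep β hβ (z i) (hzB i) h j, hθ' j i, if_neg (Ne.symm hij), mul_zero,
          mul_zero]
      · rw [if_neg h, zero_mul, mul_zero]
  have hM : (Matrix.of fun i j => LinearMap.trace ℂ V (aeval h' (p i) * T j)) =
      Matrix.diagonal fun i => ∑ β ∈ B, if ext0 θ' β = ext0 θ' (z i) then
        (finrank ℂ (g.maxGenEigenspace β) : ℂ) else 0 := by
    ext i j
    rw [Matrix.of_apply, hentry i j, Matrix.diagonal_apply]
  rw [hM, Matrix.det_diagonal]
  refine Finset.prod_ne_zero_iff.2 fun i _ => ?_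
  have h1 : (∑ β ∈ B, if ext0 θ' β = ext0 θ' (z i) then
      (finrank ℂ (g.maxGenEigenspace β) : ℂ) else 0) =
      ((∑ β ∈ B, if ext0 θ' β = ext0 θ' (z i) then
        finrank ℂ (g.maxGenEigenspace β) else 0 : ℕ) : ℂ) := by
    push_cast
    rfl
  rw [h1, Nat.cast_ne_zero]
  have h2 : 0 < finrank ℂ (g.maxGenEigenspace (z i)) := by
    rw [Module.finrank_pos_iff, Submodule.nontrivial_iff_ne_bot]
    exact hB' _ (hzB i)
  have h3 := Finset.single_le_sum (f := fun β => if ext0 θ' β = ext0 θ' (z i) then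
    finrank ℂ (g.maxGenEigenspace β) else 0) (fun _ _ => Nat.zero_le _) (hzB i)
  simp only [if_true] at h3
  omega

end Pool.Agent.Y86.RM
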